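import Mathlib

/-! Sections of groups. -/

set_option autoImplicit false

namespace Pool.Agent.P.MP_be2783_al.H

/-- `X` is a section of `G`: it is isomorphic to `H ⧸ K` with `H ≤ G` and `K` normal in `H` -/
def IsSection (X G : Type) [Group X] [Group G] : Prop :=
  ∃ (H : Subgroup G) (K : Subgroup H) (_ : K.Normal), Nonempty (H ⧸ K ≃* X)

end Pool.Agent.P.MP_be2783_al.H
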