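import Pool.Agent.P.MP_be2783_al.H.Sec

/-! The finite counterexamples: even `n`, and `n` a product of two coprime numbers. -/

set_option autoImplicit false

namespace Pool.Agent.P.MP_be2783_al.H

open DihedralGroup Function

lemma sec_coprime {a b : ℕ} (h : a.Coprime b) :
    IsSection (DihedralGroup (a * b)) (DihedralGroup a × DihedralGroup b) := by
  let φ := (ZMod.castHom (dvd_mul_right a b) (ZMod a)).toAddMonoidHom
  let ψ := (ZMod.castHom (dvd_mul_left b a) (ZMod b)).toAddMonoidHom
  refine isSection_of_ker ((dmap φ).prod (dmap ψ)) (MonoidHom.id _) surjective_id ?_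
  rintro (i | i) hi
  · obtain ⟨k, rfl⟩ := ZMod.intCast_surjective i
    have h1 : (r (φ k) : DihedralGroup a) = r 0 := congrArg Prod.fst hi
    have h2 : (r (ψ k) : DihedralGroup b) = r 0 := congrArg Prod.snd hi
    simp only [φ, ψ, r.injEq, RingHom.toAddMonoidHom_eq_coe, AddMonoidHom.coe_coe, map_intCast,
      ZMod.intCast_zmod_eq_zero_iff_dvd] at h1 h2
    rw [MonoidHom.id_apply, one_def, r.injEq, ZMod.intCast_zmod_eq_zero_iff_dvd, Nat.cast_mul]
    exact (Nat.isCoprime_iff_coprime.2 h).mul_dvd h1 h2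
  · have h1 : (sr (φ i) : DihedralGroup a) = r 0 := congrArg Prod.fst hi
    cases h1

lemma no_sec_small {a n : ℕ} (ha : 0 < a) (h : a < n) :
    ¬ IsSection (DihedralGroup n) (DihedralGroup a) := by
  intro hs
  have : NeZero a := ⟨ha.ne'⟩
  have := hs.card_le
  rw [nat_card, nat_card] at this
  omega

lemma no_sec_inv {G : Type} [Group G] [Finite G] {n : ℕ} (hn : 2 ≤ n) (hc : Nat.card G ≤ 2 * n)
    (z : G) (hz : ∀ x : G, x * x = 1 → x = 1 ∨ x = z) : ¬ IsSection (DihedralGroup n) G := by
  intro hs
  obtain ⟨i, hi⟩ := hs.embeds (by rwa [nat_card])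
  have h1 : ∀ j, i (sr j) = z := fun j =>
    (hz _ (by rw [← map_mul, sr_mul_self, map_one])).resolve_left fun h => by
      have : (sr j : DihedralGroup n) = r 0 := hi (h.trans (map_one i).symm)
      cases this
  have : Fact (1 < n) := ⟨hn⟩
  have h2 := hi ((h1 0).trans (h1 1).symm)
  simp at h2

open QuaternionGroup

/-- the parity of an element of a dicyclic group -/
def qsgn (k : ℕ) : QuaternionGroup k →* Multiplicative (ZMod 2) :=
  MonoidHom.mk' (fun d => match d with
    | a _ => 1
    | xa _ => Multiplicative.ofAdd 1) (by rintro (i | i) (j | j) <;> simp; decide)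

lemma solv_quat (k : ℕ) : Group.IsSolvable (QuaternionGroup k) := by
  refine solv_of_comm (qsgn k) ?_
  rintro (i | i) (j | j) h1 h2
  · simp [add_comm]
  · exact absurd h2 (by change Multiplicative.ofAdd (1 : ZMod 2) ≠ 1; decide)
  · exact absurd h1 (by change Multiplicative.ofAdd (1 : ZMod 2) ≠ 1; decide)
  · exact absurd h1 (by change Multiplicative.ofAdd (1 : ZMod 2) ≠ 1; decide)

lemma quat_inv {k : ℕ} (hk : 0 < k) (x : QuaternionGroup k) (h : x * x = 1) : x = 1 ∨ x = a k := by
  rcases x with i | i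
  · obtain ⟨j, rfl⟩ := ZMod.intCast_surjective i
    rw [a_mul_a, QuaternionGroup.one_def, a.injEq, ← Int.cast_add,
      ZMod.intCast_zmod_eq_zero_iff_dvd] at h
    obtain ⟨c, hc⟩ := h
    have h1 : j = k * c := by
      push_cast at hc
      linarith
    have h2 : ((2 * k : ℕ) : ZMod (2 * k)) = 0 := ZMod.natCast_self _
    push_cast at h2
    rw [QuaternionGroup.one_def, a.injEq, a.injEq, h1]
    rcases Int.even_or_odd' c with ⟨d, rfl | rfl⟩
    · left
      push_cast
      linear_combination (d : ZMod (2 * k)) * h2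
    · right
      push_cast
      linear_combination (d : ZMod (2 * k)) * h2
  · rw [xa_mul_xa, QuaternionGroup.one_def, a.injEq, add_sub_cancel_right,
      ZMod.natCast_eq_zero_iff] at h
    have := Nat.le_of_dvd hk h
    omega

lemma sec_quat (k : ℕ) :
    IsSection (DihedralGroup (2 * k)) (QuaternionGroup k × Multiplicative (ZMod 4)) := by
  let π : Multiplicative (ZMod 4) →* Multiplicative (ZMod 2) :=
    (ZMod.castHom (by norm_num : 2 ∣ 4) (ZMod 2)).toAddMonoidHom.toMultiplicative
  let H : Subgroup (QuaternionGroup k × Multiplicative (ZMod 4)) :=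
    ((qsgn k).comp (MonoidHom.fst _ _)).eqLocus (π.comp (MonoidHom.snd _ _))
  let w : Multiplicative (ZMod 4) → ZMod (2 * k) := fun c =>
    (k : ZMod (2 * k)) * ((c.toAdd.val / 2 : ℕ) : ZMod (2 * k))
  have h2 : ((2 * k : ℕ) : ZMod (2 * k)) = 0 := ZMod.natCast_self _
  push_cast at h2
  have hw : ∀ (c c' : Multiplicative (ZMod 4)) (t : ℕ),
      (c.toAdd.val / 2 + c'.toAdd.val / 2 + t = (c * c').toAdd.val / 2 ∨
        c.toAdd.val / 2 + c'.toAdd.val / 2 + t = (c * c').toAdd.val / 2 + 2) →
      w (c * c') = w c + w c' + k * t := by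
    intro c c' t h
    rcases h with h | h
    · have := congrArg (Nat.cast : ℕ → ZMod (2 * k)) h
      rw [Nat.cast_add, Nat.cast_add] at this
      simp only [w]
      linear_combination (-k : ZMod (2 * k)) * this
    · have := congrArg (Nat.cast : ℕ → ZMod (2 * k)) h
      rw [Nat.cast_add, Nat.cast_add, Nat.cast_add, Nat.cast_ofNat] at this
      simp only [w]
      linear_combination (-k : ZMod (2 * k)) * this - h2
  have h0 : ∀ c c' : Multiplicative (ZMod 4), 1 = π c ∨ 1 = π c' → w (c * c') = w c + w c' := by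
    intro c c' h
    rw [hw c c' 0 (by revert c c'; decide), Nat.cast_zero, mul_zero, add_zero]
  have h1 : ∀ c c' : Multiplicative (ZMod 4), Multiplicative.ofAdd 1 = π c →
      Multiplicative.ofAdd 1 = π c' → w (c * c') = w c + w c' + k := by
    intro c c' h h'
    rw [hw c c' 1 (by revert c c'; decide), Nat.cast_one, mul_one]
  have h3 : ∀ c, w c + w c = 0 := fun c => by
    simp only [w]
    linear_combination ((c.toAdd.val / 2 : ℕ) : ZMod (2 * k)) * h2
  refine isSection_of_hom H (MonoidHom.mk' (fun z => match z.1.1 with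
    | a i => r (i + w z.1.2)
    | xa i => sr (i + w z.1.2)) ?_) ?_
  · rintro ⟨⟨i | i, c⟩, hc⟩ ⟨⟨j | j, c'⟩, hc'⟩
    · change r (i + j + w (c * c')) = r (i + w c + (j + w c'))
      rw [h0 c c' (Or.inl hc)]
      congr 1
      ring
    · change sr (j - i + w (c * c')) = sr (j + w c' - (i + w c))
      rw [h0 c c' (Or.inl hc)]
      congr 1
      linear_combination h3 c
    · change sr (i + j + w (c * c')) = sr (i + w c + (j + w c'))
      rw [h0 c c' (Or.inr hc')]
      congr 1
      ring
    · change r ((k : ZMod (2 * k)) + j - i + w (c * c')) = r (j + w c' - (i + w c))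
      rw [h1 c c' hc hc']
      congr 1
      linear_combination h3 c + h2
  · rintro (i | i)
    · exact ⟨⟨(a i, 1), (map_one π).symm⟩, by simp [w]⟩
    · refine ⟨⟨(xa i, Multiplicative.ofAdd 1), ?_⟩, ?_⟩
      · change Multiplicative.ofAdd 1 = π (Multiplicative.ofAdd 1)
        decide
      · change sr (i + (k : ZMod (2 * k)) * ((1 / 2 : ℕ) : ZMod (2 * k))) = sr i
        simp

end Pool.Agent.P.MP_be2783_al.H
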