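import Pool.Agent.P.MP_be2783_al.Basic

/-! The shift, the twisted bilinear form and the evaluation over an arbitrary commutative ring. -/

set_option autoImplicit false

namespace Pool.Agent.P.MP_be2783_al.H

variable {S : Type} [CommRing S]

/-- the indicator function of the sparse sequence, with integer values -/
noncomputable def wz (x : ℤ) : ℤ := if w x = 1 then 1 else 0

lemma wz_zero {x : ℤ} (h : w x = 0) : wz x = 0 := by
  rw [wz, h, if_neg (by decide)]

lemma wz_one {x : ℤ} (h : w x = 1) : wz x = 1 := if_pos h

/-- the shift by `n` -/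
noncomputable def shf (n : ℤ) : (ℤ →₀ S) →ₗ[S] (ℤ →₀ S) := Finsupp.lmapDomain S S (· + n)

lemma shf_single (n i : ℤ) (a : S) : shf n (Finsupp.single i a) = Finsupp.single (i + n) a := by
  simp [shf, Finsupp.mapDomain_single]

lemma shf_zero (v : ℤ →₀ S) : shf 0 v = v := by
  induction v using Finsupp.induction_linear with
  | zero => simp
  | add f g hf hg => simp [hf, hg]
  | single i a => simp [shf_single]

lemma shf_shf (m n : ℤ) (v : ℤ →₀ S) : shf m (shf n v) = shf (m + n) v := by
  induction v using Finsupp.induction_linear with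
  | zero => simp
  | add f g hf hg => simp [hf, hg]
  | single i a => simp only [shf_single]; congr 1; ring

/-- the bilinear form that changes sign under the shift by one -/
noncomputable def bet : (ℤ →₀ S) →ₗ[S] (ℤ →₀ S) →ₗ[S] S :=
  Finsupp.linearCombination S fun i : ℤ =>
    Finsupp.linearCombination S fun j : ℤ => ((e i : ℤ) : S) * ((wz (j - i) : ℤ) : S)

lemma bet_single (i j : ℤ) (a b : S) : bet (Finsupp.single i a) (Finsupp.single j b) =
    a * b * (((e i : ℤ) : S) * ((wz (j - i) : ℤ) : S)) := by
  simp [bet, mul_assoc]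

lemma bet_shf (n : ℤ) (u v : ℤ →₀ S) : bet (shf n u) (shf n v) = ((e n : ℤ) : S) * bet u v := by
  induction u using Finsupp.induction_linear with
  | zero => simp
  | add f g hf hg => simp [hf, hg, mul_add]
  | single i a =>
    induction v using Finsupp.induction_linear with
    | zero => simp
    | add f g hf hg => simp only [map_add, hf, hg, mul_add]
    | single j b =>
      simp only [shf_single, bet_single, e_add]
      have : j + n - (i + n) = j - i := by ring
      rw [this]
      push_cast
      ring

/-- evaluation at `-1` -/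
noncomputable def evl : (ℤ →₀ S) →ₗ[S] S :=
  Finsupp.linearCombination S fun i : ℤ => ((e i : ℤ) : S)

lemma evl_single (i : ℤ) (a : S) : evl (Finsupp.single i a) = a * ((e i : ℤ) : S) := by
  simp [evl]

lemma evl_shf (n : ℤ) (u : ℤ →₀ S) : evl (shf n u) = ((e n : ℤ) : S) * evl u := by
  induction u using Finsupp.induction_linear with
  | zero => simp
  | add f g hf hg => simp [hf, hg, mul_add]
  | single i a =>
    simp only [shf_single, evl_single, e_add]
    push_cast
    ring

lemma bet_sum (m n : ℤ) (v : ℤ →₀ S) :
    bet (shf m v) (shf n v) = ∑ i ∈ v.support, ∑ j ∈ v.support,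
      v i * v j * (((e (i + m) : ℤ) : S) * ((wz (j + n - (i + m)) : ℤ) : S)) := by
  have hv : v = ∑ i ∈ v.support, Finsupp.single i (v i) := by
    conv_lhs => rw [← Finsupp.sum_single v]
    rfl
  have h1 : ∀ m, shf m v = ∑ i ∈ v.support, Finsupp.single (i + m) (v i) := by
    intro m
    conv_lhs => rw [hv]
    simp only [map_sum, shf_single]
  rw [h1, h1]
  simp only [map_sum, LinearMap.sum_apply, bet_single]
  rw [Finset.sum_comm]

/-- no nonzero vector is orthogonal to all its shifts by multiples of `k` -/
lemma exists_noniso [IsDomain S] (v : ℤ →₀ S) (hv : v ≠ 0) (k : ℤ) (hk : k ≠ 0) :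
    ∃ m : ℤ, bet v (shf (k * m) v) - bet (shf (k * m) v) v ≠ 0 := by
  have hne : v.support.Nonempty := Finsupp.support_nonempty_iff.mpr hv
  set lo := v.support.min' hne with hlo
  set hi := v.support.max' hne with hhi
  have hlomem : lo ∈ v.support := Finset.min'_mem _ _
  have hhimem : hi ∈ v.support := Finset.max'_mem _ _
  have hb : ∀ i ∈ v.support, lo ≤ i ∧ i ≤ hi := fun i hi' =>
    ⟨Finset.min'_le _ _ hi', Finset.le_max' _ _ hi'⟩
  have hlh : lo ≤ hi := (hb lo hlomem).2
  obtain ⟨m, h1, h2, h3⟩ := exists_gap k hk (hi - lo).toNat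
  have hD : (((hi - lo).toNat : ℕ) : ℤ) = hi - lo := Int.toNat_of_nonneg (by omega)
  rw [hD] at h1 h2 h3
  refine ⟨m, ?_⟩
  set n := k * m with hn
  have hA : bet (shf n v) v = 0 := by
    have := bet_sum n 0 v
    rw [shf_zero] at this
    rw [this]
    refine Finset.sum_eq_zero fun i hi' => Finset.sum_eq_zero fun j hj => ?_
    have := hb i hi'
    have := hb j hj
    rw [wz_zero (w_neg (by omega))]
    simp
  have hB : bet v (shf n v) = v lo * v hi * ((e lo : ℤ) : S) := by
    have := bet_sum 0 n v
    rw [shf_zero] at this
    rw [this, Finset.sum_eq_single_of_mem lo hlomem, Finset.sum_eq_single_of_mem hi hhimem]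
    · have : hi + n - (lo + 0) = n + (hi - lo) := by ring
      rw [this, wz_one h2]
      simp
    · intro j hj hne'
      have := hb j hj
      rw [wz_zero (h3 _ (by omega) (by omega))]
      simp
    · intro i hi' hne'
      refine Finset.sum_eq_zero fun j hj => ?_
      have := hb i hi'
      have := hb j hj
      rw [wz_zero (h3 _ (by omega) (by omega))]
      simp
  rw [hA, hB, sub_zero]
  have he : ((e lo : ℤ) : S) ≠ 0 := by
    rcases e_cases lo with ⟨_, h⟩ | ⟨_, h⟩ <;> simp [h]
  exact mul_ne_zero (mul_ne_zero (Finsupp.mem_support_iff.mp hlomem)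
    (Finsupp.mem_support_iff.mp hhimem)) he

variable {T : Type} [CommRing T]

/-- change of coefficients -/
noncomputable def red (c : S →+* T) : (ℤ →₀ S) →+ (ℤ →₀ T) :=
  Finsupp.mapRange.addMonoidHom c.toAddMonoidHom

lemma red_single (c : S →+* T) (i : ℤ) (a : S) :
    red c (Finsupp.single i a) = Finsupp.single i (c a) := by
  simp [red]

lemma red_shf (c : S →+* T) (n : ℤ) (u : ℤ →₀ S) : red c (shf n u) = shf n (red c u) := by
  induction u using Finsupp.induction_linear with
  | zero => simp
  | add f g hf hg => simp [hf, hg]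
  | single i a => simp only [shf_single, red_single]

lemma evl_red (c : S →+* T) (u : ℤ →₀ S) : evl (red c u) = c (evl u) := by
  induction u using Finsupp.induction_linear with
  | zero => simp
  | add f g hf hg => simp [hf, hg]
  | single i a => simp [evl_single, red_single]

end Pool.Agent.P.MP_be2783_al.H
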