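import Pool.Agent.P.MP_be2783_al.H.Defs

/-! General facts on sections, and the cases where a dihedral section of a product descends. -/

set_option autoImplicit false

namespace Pool.Agent.P.MP_be2783_al.H

open DihedralGroup Function

section

variable {X G U : Type} [Group X] [Group G] [Group U]

lemma IsSection.hom (h : IsSection X G) : ∃ (H : Subgroup G) (f : H →* X), Surjective f := by
  obtain ⟨H, K, _, ⟨φ⟩⟩ := h
  exact ⟨H, φ.toMonoidHom.comp (QuotientGroup.mk' K),
    φ.surjective.comp (QuotientGroup.mk'_surjective K)⟩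

lemma isSection_of_hom (H : Subgroup G) (f : H →* X) (hf : Surjective f) : IsSection X G :=
  ⟨H, f.ker, inferInstance, ⟨QuotientGroup.quotientKerEquivOfSurjective f hf⟩⟩

lemma isSection_of_ker (i : U →* G) (f : U →* X) (hf : Surjective f)
    (h : ∀ u, i u = 1 → f u = 1) : IsSection X G := by
  have h1 : i.rangeRestrict.ker ≤ f.ker := fun u hu =>
    h u (congrArg Subtype.val (MonoidHom.mem_ker.1 hu))
  refine isSection_of_hom i.range
    (i.rangeRestrict.liftOfSurjective i.rangeRestrict_surjective ⟨f, h1⟩) fun x => ?_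
  obtain ⟨u, rfl⟩ := hf x
  exact ⟨i.rangeRestrict u, MonoidHom.liftOfRightInverse_comp_apply _ _ _ _ _⟩

lemma isSection_of_range {Y : Type} [Group Y] (i : U →* G) (f : U →* Y) (φ : X →* Y)
    (hφ : Injective φ) (hf : ∀ x, ∃ u, f u = φ x) (h : ∀ u, i u = 1 → f u = 1) :
    IsSection X G := by
  let V : Subgroup (U × X) :=
    (f.comp (MonoidHom.fst U X)).eqLocus (φ.comp (MonoidHom.snd U X))
  refine isSection_of_ker (i.comp ((MonoidHom.fst U X).comp V.subtype))
    ((MonoidHom.snd U X).comp V.subtype) (fun x => ?_) fun u hu => hφ ?_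
  · obtain ⟨u, hu⟩ := hf x
    exact ⟨⟨(u, x), hu⟩, rfl⟩
  · rw [map_one, ← h u.1.1 hu]
    exact u.2.symm

lemma IsSection.sub (H : Subgroup G) (h : IsSection X H) : IsSection X G := by
  obtain ⟨K, f, hf⟩ := h.hom
  refine isSection_of_ker (H.subtype.comp K.subtype) f hf fun u hu => ?_
  rw [show u = 1 from Subtype.ext (Subtype.ext hu), map_one]

lemma IsSection.card_le [Finite G] (h : IsSection X G) : Nat.card X ≤ Nat.card G := by
  obtain ⟨K, f, hf⟩ := h.hom
  exact (Nat.card_le_card_of_surjective f hf).trans (Subgroup.card_le_card_group K)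

lemma IsSection.embeds [Finite G] (h : IsSection X G) (hc : Nat.card G ≤ Nat.card X) :
    ∃ i : X →* G, Injective i := by
  obtain ⟨K, f, hf⟩ := h.hom
  have hb : Bijective f := hf.bijective_of_nat_card_le ((Subgroup.card_le_card_group K).trans hc)
  exact ⟨K.subtype.comp (MulEquiv.ofBijective f hb).symm.toMonoidHom,
    K.subtype_injective.comp (MulEquiv.ofBijective f hb).symm.injective⟩

lemma solv_of_ker {K : Type} [Group K] [Group.IsSolvable K] (φ : G →* K) [Group.IsSolvable φ.ker] :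
    Group.IsSolvable G :=
  Group.isSolvable_of_ker_le_range φ.ker.subtype φ (by simp)

lemma solv_of_comm {K : Type} [Group K] [Group.IsSolvable K] (φ : G →* K)
    (h : ∀ x y, φ x = 1 → φ y = 1 → x * y = y * x) : Group.IsSolvable G :=
  haveI : Group.IsSolvable φ.ker := Group.isSolvable_of_comm fun x y => Subtype.ext (h _ _ x.2 y.2)
  solv_of_ker φ

lemma two_gen (a b : G) : ∃ x y : Subgroup.closure ({a, b} : Set G),
    Subgroup.closure ({x, y} : Set (Subgroup.closure ({a, b} : Set G))) = ⊤ := by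
  refine ⟨⟨a, Subgroup.subset_closure (by simp)⟩, ⟨b, Subgroup.subset_closure (by simp)⟩, ?_⟩
  rw [← Subgroup.closure_closure_coe_preimage]
  congr 1
  ext x
  simp [Subtype.ext_iff]

end

/-- the map of dihedral groups induced by an additive map -/
def dmap {n m : ℕ} (φ : ZMod n →+ ZMod m) : DihedralGroup n →* DihedralGroup m :=
  MonoidHom.mk' (fun d => match d with
    | r i => r (φ i)
    | sr i => sr (φ i)) (by rintro (i | i) (j | j) <;> simp)

lemma dmap_r {n m : ℕ} (φ : ZMod n →+ ZMod m) (i : ZMod n) : dmap φ (r i) = r (φ i) := rfl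

lemma dmap_sr {n m : ℕ} (φ : ZMod n →+ ZMod m) (i : ZMod n) : dmap φ (sr i) = sr (φ i) := rfl

/-- the parity of an element of a dihedral group -/
def dsgn (n : ℕ) : DihedralGroup n →* Multiplicative (ZMod 2) :=
  MonoidHom.mk' (fun d => match d with
    | r _ => 1
    | sr _ => Multiplicative.ofAdd 1) (by rintro (i | i) (j | j) <;> simp <;> decide)

lemma solv_dih (n : ℕ) : Group.IsSolvable (DihedralGroup n) := by
  refine solv_of_comm (dsgn n) ?_
  rintro (i | i) (j | j) h1 h2
  · simp [add_comm]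
  · exact absurd h2 (by change Multiplicative.ofAdd (1 : ZMod 2) ≠ 1; decide)
  · exact absurd h1 (by change Multiplicative.ofAdd (1 : ZMod 2) ≠ 1; decide)
  · exact absurd h1 (by change Multiplicative.ofAdd (1 : ZMod 2) ≠ 1; decide)

variable {A B : Type} [Group A] [Group B]

/-- a dihedral section of a product is a section of a product of two generator subgroups -/
lemma reduce {n : ℕ} (h : IsSection (DihedralGroup n) (A × B)) : ∃ (a a' : A) (b b' : B),
    IsSection (DihedralGroup n)
      (Subgroup.closure ({a, a'} : Set A) × Subgroup.closure ({b, b'} : Set B)) := by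
  obtain ⟨H, f, hf⟩ := h.hom
  obtain ⟨x, hx⟩ := hf (r 1)
  obtain ⟨g, hg⟩ := hf (sr 0)
  refine ⟨x.1.1, g.1.1, x.1.2, g.1.2, ?_⟩
  set A' := Subgroup.closure ({x.1.1, g.1.1} : Set A)
  set B' := Subgroup.closure ({x.1.2, g.1.2} : Set B)
  let j : A' × B' →* A × B := A'.subtype.prodMap B'.subtype
  let x' : H.comap j := ⟨(⟨x.1.1, Subgroup.subset_closure (by simp)⟩,
    ⟨x.1.2, Subgroup.subset_closure (by simp)⟩), x.2⟩
  let g' : H.comap j := ⟨(⟨g.1.1, Subgroup.subset_closure (by simp)⟩,
    ⟨g.1.2, Subgroup.subset_closure (by simp)⟩), g.2⟩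
  let f' : H.comap j →* DihedralGroup n := f.comp (j.subgroupComap H)
  have h1 : f' x' = r 1 := hx
  have h2 : f' g' = sr 0 := hg
  refine isSection_of_hom (H.comap j) f' ?_
  rintro (i | i)
  · exact ⟨x' ^ (i.cast : ℤ), by rw [map_zpow, h1, r_one_zpow, ZMod.intCast_zmod_cast]⟩
  · exact ⟨g' * x' ^ (i.cast : ℤ), by
      rw [map_mul, map_zpow, h1, h2, r_one_zpow, ZMod.intCast_zmod_cast, sr_mul_r, zero_add]⟩

lemma descend_one (h : IsSection (DihedralGroup 1) (A × B)) :
    IsSection (DihedralGroup 1) A ∨ IsSection (DihedralGroup 1) B := by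
  obtain ⟨H, f, hf⟩ := h.hom
  by_cases h1 : ∀ u : H, u.1.2 = 1 → f u = 1
  · exact Or.inr (isSection_of_ker ((MonoidHom.snd A B).comp H.subtype) f hf h1)
  push Not at h1
  obtain ⟨a, ha, hfa⟩ := h1
  let V : Subgroup H := ((MonoidHom.snd A B).comp H.subtype).ker
  refine Or.inl (isSection_of_ker ((MonoidHom.fst A B).comp (H.subtype.comp V.subtype))
    (f.comp V.subtype) (fun d => ?_) fun u hu => ?_)
  · have : ∀ x y : DihedralGroup 1, x ≠ 1 → y = 1 ∨ x = y := by decide
    rcases this _ d hfa with rfl | rfl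
    · exact ⟨1, map_one _⟩
    · exact ⟨⟨a, ha⟩, rfl⟩
  · rw [show u = 1 from Subtype.ext (Subtype.ext (Prod.ext hu u.2)), map_one]

lemma descend {n : ℕ} [IsDomain (ZMod n)] (h2 : (2 : ZMod n) ≠ 0)
    (h : IsSection (DihedralGroup n) (A × B)) :
    IsSection (DihedralGroup n) A ∨ IsSection (DihedralGroup n) B := by
  obtain ⟨H, f, hf⟩ := h.hom
  by_cases h1 : ∀ u : H, u.1.2 = 1 → f u = 1
  · exact Or.inr (isSection_of_ker ((MonoidHom.snd A B).comp H.subtype) f hf h1)
  push Not at h1
  obtain ⟨a, i, ha, hi, hfa⟩ : ∃ (a : H) (i : ZMod n), a.1.2 = 1 ∧ i ≠ 0 ∧ f a = r i := by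
    obtain ⟨a, ha, hfa⟩ := h1
    obtain ⟨x, hx⟩ := hf (r 1)
    rcases hd : f a with i | i
    · exact ⟨a, i, ha, fun h => hfa (by rw [hd, h, r_zero]), hd⟩
    · refine ⟨a * x⁻¹ * a⁻¹ * x, 2, by simp [ha], h2, ?_⟩
      simp only [map_mul, map_inv, hd, hx, inv_r, inv_sr, sr_mul_r, sr_mul_sr, r_mul_r]
      congr 1
      ring
  obtain ⟨g, hg⟩ := hf (sr 0)
  let V : Subgroup H := (Subgroup.zpowers g.1.2).comap ((MonoidHom.snd A B).comp H.subtype)
  have haV : a ∈ V := by
    change a.1.2 ∈ Subgroup.zpowers g.1.2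
    rw [ha]
    exact one_mem _
  have hgV : g ∈ V := Subgroup.mem_zpowers g.1.2
  refine Or.inl (isSection_of_range ((MonoidHom.fst A B).comp (H.subtype.comp V.subtype))
    (f.comp V.subtype) (dmap (AddMonoidHom.mulLeft i)) ?_ ?_ fun u hu => ?_)
  · rintro (j | j) (k | k) h <;>
      simp only [dmap_r, dmap_sr, AddMonoidHom.coe_mulLeft, r.injEq, sr.injEq, reduceCtorEq] at h ⊢
    · exact mul_left_cancel₀ hi h
    · exact mul_left_cancel₀ hi h
  · rintro (j | j)
    · exact ⟨⟨a, haV⟩ ^ (j.cast : ℤ), by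
        rw [map_zpow]
        change f a ^ _ = r (i * j)
        rw [hfa, r_zpow, ZMod.intCast_zmod_cast]⟩
    · exact ⟨⟨g, hgV⟩ * ⟨a, haV⟩ ^ (j.cast : ℤ), by
        rw [map_mul, map_zpow]
        change f g * f a ^ _ = sr (i * j)
        rw [hfa, hg, r_zpow, ZMod.intCast_zmod_cast, sr_mul_r, zero_add]⟩
  · obtain ⟨y, k, hk⟩ := u
    have hy : y.1.1 = 1 := hu
    replace hk : g.1.2 ^ k = y.1.2 := hk
    change f y = 1
    have c1 : y * g = g * y := Subtype.ext (Prod.ext (by simp [hy])
      (by simp [← hk, (Commute.self_zpow g.1.2 k).eq]))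
    have c2 : y * a = a * y := Subtype.ext (Prod.ext (by simp [hy]) (by simp [ha]))
    replace c1 := congrArg f c1
    replace c2 := congrArg f c2
    rw [map_mul, map_mul] at c1 c2
    rcases hd : f y with t | t
    · rw [hd, hg, r_mul_sr, sr_mul_r, sr.injEq] at c1
      have : (2 : ZMod n) * t = 0 := by linear_combination -c1
      rw [(mul_eq_zero.1 this).resolve_left h2, r_zero]
    · rw [hd, hfa, r_mul_sr, sr_mul_r, sr.injEq] at c2
      have : (2 : ZMod n) * i = 0 := by linear_combination c2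
      exact absurd ((mul_eq_zero.1 this).resolve_left h2) hi

end Pool.Agent.P.MP_be2783_al.H
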