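import Pool.Agent.P.MP_be2783_al.H.Form
import Pool.Agent.P.MP_be2783_al.H.Sec

/-! The counterexample for the dihedral group of order `2 p m` with `p ∣ m` and `m` odd. -/

set_option autoImplicit false

namespace Pool.Agent.P.MP_be2783_al.H

open DihedralGroup Function

variable (p m : ℕ)

/-- multiplication by `m` -/
def ta : ZMod p →+ ZMod (p * m) :=
  ZMod.lift p ⟨zmultiplesHom _ (m : ZMod (p * m)), by
    simp only [zmultiplesHom_apply, zsmul_eq_mul, Int.cast_natCast]
    exact_mod_cast ZMod.natCast_self (p * m)⟩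

lemma ta_int (k : ℤ) : ta p m (k : ZMod p) = (k : ZMod (p * m)) * m := by
  rw [ta, ZMod.lift_coe]
  simp

/-- reduction modulo `m` -/
def ro : ZMod (p * m) →+* ZMod m := ZMod.castHom (dvd_mul_left m p) _

variable [h : Fact (p ∣ m)]

/-- reduction modulo `p` -/
def cs : ZMod m →+* ZMod p := ZMod.castHom h.out _

/-- the cocycle -/
noncomputable def gam (u v : ℤ →₀ ZMod m) : ZMod (p * m) :=
  ta p m (bet (red (cs p m) u) (red (cs p m) v))

variable {p m}

omit h in
lemma ta_mul (k : ℤ) (x : ZMod p) : ta p m ((k : ZMod p) * x) = (k : ZMod (p * m)) * ta p m x := by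
  rw [← zsmul_eq_mul, map_zsmul, zsmul_eq_mul]

omit h in
lemma ro_ta (x : ZMod p) : ro p m (ta p m x) = 0 := by
  obtain ⟨k, rfl⟩ := ZMod.intCast_surjective x
  simp [ta_int]

omit h in
lemma p_ta (x : ZMod p) : (p : ZMod (p * m)) * ta p m x = 0 := by
  have := ta_mul (m := m) (p : ℤ) x
  simp only [Int.cast_natCast, CharP.cast_eq_zero, zero_mul, map_zero] at this
  exact this.symm

lemma m_mul (a : ZMod (p * m)) : (m : ZMod (p * m)) * a = ta p m (cs p m (ro p m a)) := by
  obtain ⟨k, rfl⟩ := ZMod.intCast_surjective a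
  rw [map_intCast, map_intCast, ta_int]
  exact mul_comm _ _

lemma gam_add_l (u v z : ℤ →₀ ZMod m) : gam p m (u + v) z = gam p m u z + gam p m v z := by
  simp [gam]

lemma gam_add_r (u v z : ℤ →₀ ZMod m) : gam p m z (u + v) = gam p m z u + gam p m z v := by
  simp [gam]

lemma gam_zero_l (u : ℤ →₀ ZMod m) : gam p m 0 u = 0 := by simp [gam]

lemma gam_zero_r (u : ℤ →₀ ZMod m) : gam p m u 0 = 0 := by simp [gam]

lemma gam_neg_l (u v : ℤ →₀ ZMod m) : gam p m (-u) v = -gam p m u v := by simp [gam]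

lemma gam_smul (k : ℕ) (u v : ℤ →₀ ZMod m) : gam p m (k • u) v = k * gam p m u v := by
  induction k with
  | zero => simp [gam_zero_l]
  | succ k ih => rw [succ_nsmul, gam_add_l, ih]; push_cast; ring

lemma gam_shf (n : ℤ) (u v : ℤ →₀ ZMod m) :
    gam p m (shf n u) (shf n v) = ((e n : ℤ) : ZMod (p * m)) * gam p m u v := by
  rw [gam, red_shf, red_shf, bet_shf, ta_mul, gam]

lemma ro_gam (u v : ℤ →₀ ZMod m) : ro p m (gam p m u v) = 0 := ro_ta _

/-- the ambient group -/
@[ext] structure Amb (p m : ℕ) : Type where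
  u : ℤ →₀ ZMod m
  a : ZMod (p * m)
  n : ℤ

noncomputable instance : Mul (Amb p m) :=
  ⟨fun x y => ⟨x.u + shf x.n y.u,
    x.a + ((e x.n : ℤ) : ZMod (p * m)) * y.a + gam p m x.u (shf x.n y.u), x.n + y.n⟩⟩

noncomputable instance : One (Amb p m) := ⟨⟨0, 0, 0⟩⟩

noncomputable instance : Inv (Amb p m) :=
  ⟨fun x => ⟨-shf (-x.n) x.u, ((e x.n : ℤ) : ZMod (p * m)) * (-x.a + gam p m x.u x.u), -x.n⟩⟩

@[simp] lemma mul_u (x y : Amb p m) : (x * y).u = x.u + shf x.n y.u := rfl
@[simp] lemma mul_a (x y : Amb p m) : (x * y).a =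
    x.a + ((e x.n : ℤ) : ZMod (p * m)) * y.a + gam p m x.u (shf x.n y.u) := rfl
@[simp] lemma mul_n (x y : Amb p m) : (x * y).n = x.n + y.n := rfl
omit h in
@[simp] lemma one_u : (1 : Amb p m).u = 0 := rfl
omit h in
@[simp] lemma one_a : (1 : Amb p m).a = 0 := rfl
omit h in
@[simp] lemma one_n : (1 : Amb p m).n = 0 := rfl
@[simp] lemma inv_u (x : Amb p m) : (x⁻¹).u = -shf (-x.n) x.u := rfl
@[simp] lemma inv_a (x : Amb p m) :
    (x⁻¹).a = ((e x.n : ℤ) : ZMod (p * m)) * (-x.a + gam p m x.u x.u) := rfl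
@[simp] lemma inv_n (x : Amb p m) : (x⁻¹).n = -x.n := rfl

noncomputable instance : Group (Amb p m) := Group.ofLeftAxioms
  (by
    intro x y z
    ext1
    · simp only [mul_u, mul_n, map_add, shf_shf, add_assoc]
    · simp only [mul_u, mul_a, mul_n, map_add, shf_shf, gam_add_l, gam_add_r, e_add]
      rw [← shf_shf x.n y.n z.u, gam_shf]
      push_cast
      ring
    · simp only [mul_n, add_assoc])
  (by
    intro x
    ext1
    · simp [shf_zero]
    · simp [e_zero, gam_zero_l]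
    · simp)
  (by
    intro x
    ext1
    · simp
    · simp only [mul_a, inv_a, inv_u, inv_n, one_a, gam_neg_l, gam_shf, e_neg]
      ring
    · simp)

/-- the projection onto the integers -/
noncomputable def nHom : Amb p m →* Multiplicative ℤ where
  toFun x := Multiplicative.ofAdd x.n
  map_one' := rfl
  map_mul' _ _ := rfl

lemma zpow_n (x : Amb p m) (k : ℤ) : (x ^ k).n = x.n * k := by
  have h2 : Multiplicative.toAdd (nHom (x ^ k)) = Multiplicative.toAdd (nHom x ^ k) := by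
    rw [map_zpow]
  rw [toAdd_zpow] at h2
  have h3 : (x ^ k).n = k • x.n := h2
  rw [h3, smul_eq_mul, mul_comm]

lemma pow_eq (x : Amb p m) (hx : x.n = 0) (k : ℕ) :
    x ^ k = ⟨k • x.u, k * x.a + (k.choose 2 : ℕ) * gam p m x.u x.u, 0⟩ := by
  induction k with
  | zero => ext1 <;> simp
  | succ k ih =>
    rw [pow_succ, ih]
    ext1
    · simp [shf_zero, succ_nsmul]
    · simp only [mul_a, shf_zero, e_zero, gam_smul, Nat.choose_succ_succ' k 1, Nat.choose_one_right]
      push_cast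
      ring
    · simp [hx]

lemma pow_cen (a : ZMod (p * m)) (k : ℕ) : (⟨0, a, 0⟩ : Amb p m) ^ k = ⟨0, k * a, 0⟩ := by
  rw [pow_eq _ rfl]
  simp [gam_zero_l]

lemma pow_m (hm : Odd m) (x : Amb p m) (hx : x.n = 0) : x ^ m = ⟨0, m * x.a, 0⟩ := by
  rw [pow_eq x hx]
  have h1 : m • x.u = 0 := by
    ext i
    simp
  obtain ⟨j, hj⟩ : p ∣ m.choose 2 := by
    obtain ⟨j, hj⟩ := hm
    rw [Nat.choose_two_right, show m - 1 = 2 * j by omega, ← mul_assoc, mul_right_comm,
      Nat.mul_div_cancel _ two_pos]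
    exact h.out.mul_right _
  rw [h1, hj, Nat.cast_mul, mul_comm (p : ZMod (p * m)), mul_assoc, gam, p_ta, mul_zero, add_zero]

lemma comm_eq (x y : Amb p m) (hx : x.n = 0) (hy : y.n = 0) :
    x * y * x⁻¹ * y⁻¹ = ⟨0, gam p m x.u y.u - gam p m y.u x.u, 0⟩ := by
  have : x * y = (⟨0, gam p m x.u y.u - gam p m y.u x.u, 0⟩ : Amb p m) * (y * x) := by
    ext1
    · simp [hx, hy, shf_zero, add_comm]
    · simp only [mul_a, mul_u, hx, hy, shf_zero, e_zero, gam_zero_l]
      push_cast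
      ring
    · simp [hx, hy]
  rw [this]
  group

lemma conj_u (g x : Amb p m) (hx : x.n = 0) : (g * x * g⁻¹).u = shf g.n x.u := by
  simp [hx, shf_shf, shf_zero]

lemma solv_amb : Group.IsSolvable (Amb p m) := by
  let φ : (nHom : Amb p m →* _).ker →* Multiplicative (ℤ →₀ ZMod m) :=
    MonoidHom.mk' (fun x => Multiplicative.ofAdd x.1.u) fun x y => by
      have hx : x.1.n = 0 := x.2
      change Multiplicative.ofAdd (x.1.u + shf x.1.n y.1.u) = _
      rw [hx, shf_zero]
      rfl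
  have : Group.IsSolvable (nHom : Amb p m →* _).ker := solv_of_comm φ fun x y h1 h2 => by
    have hx : x.1.n = 0 := x.2
    have hy : y.1.n = 0 := y.2
    replace h1 : x.1.u = 0 := h1
    replace h2 : y.1.u = 0 := h2
    refine Subtype.ext ?_
    ext1 <;> simp [hx, hy, h1, h2, add_comm, gam_zero_l, e_zero]
  exact solv_of_ker nHom

variable (p m)

/-- the first factor -/
noncomputable def FA : Subgroup (Amb p m) where
  carrier := {g | ro p m g.a = evl g.u}
  mul_mem' := by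
    intro x y hx hy
    simp only [Set.mem_ofPred_eq] at hx hy ⊢
    simp [ro_gam, evl_shf, hx, hy]
  one_mem' := by simp
  inv_mem' := by
    intro x hx
    simp only [Set.mem_ofPred_eq] at hx ⊢
    simp [ro_gam, evl_shf, hx, e_neg]

/-- the second factor -/
noncomputable def FB : Subgroup (Amb p m) where
  carrier := {g | ro p m g.a = 0}
  mul_mem' := by
    intro x y hx hy
    simp only [Set.mem_ofPred_eq] at hx hy ⊢
    simp [ro_gam, hx, hy]
  one_mem' := by simp
  inv_mem' := by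
    intro x hx
    simp only [Set.mem_ofPred_eq] at hx ⊢
    simp [ro_gam, hx]

/-- the fibre product -/
noncomputable def FH : Subgroup (FA p m × FB p m) where
  carrier := {z | z.1.1.u = z.2.1.u ∧ z.1.1.n = z.2.1.n}
  mul_mem' := by
    rintro x y ⟨hx1, hx2⟩ ⟨hy1, hy2⟩
    simp [hx1, hx2, hy1, hy2]
  one_mem' := by simp
  inv_mem' := by
    rintro x ⟨hx1, hx2⟩
    simp [hx1, hx2]

/-- the description of a dihedral group by a residue and a parity -/
def dih {N : ℕ} (a : ZMod N) (n : ℤ) : DihedralGroup N := if Even n then r a else sr (-a)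

lemma dih_mul {N : ℕ} (a b : ZMod N) (n k : ℤ) :
    dih (a + ((e n : ℤ) : ZMod N) * b) (n + k) = dih a n * dih b k := by
  rcases e_cases n with ⟨hn, h⟩ | ⟨hn, h⟩ <;> by_cases hk : Even k <;>
    simp [dih, h, hn, hk, Int.even_add] <;> ring_nf

lemma sec_prod : IsSection (DihedralGroup (p * m)) (FA p m × FB p m) := by
  refine isSection_of_hom (FH p m) (MonoidHom.mk'
    (fun z => dih (z.1.1.1.a - z.1.2.1.a) z.1.1.1.n) ?_) ?_
  · rintro ⟨⟨x1, x2⟩, hx1, hx2⟩ ⟨⟨y1, y2⟩, hy1, hy2⟩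
    simp only at hx1 hx2 hy1 hy2
    rw [← dih_mul]
    simp only [Subgroup.coe_mul, Prod.mk_mul_mk, mul_a, mul_n, hx1, hx2, hy1, hy2]
    congr 1
    ring
  · have key : ∀ (c : ZMod (p * m)) (n : ℤ), ∃ z : FH p m, z.1.1.1.a - z.1.2.1.a = c ∧
        z.1.1.1.n = n := fun c n =>
      ⟨⟨(⟨⟨Finsupp.single 0 (ro p m c), c, n⟩, by
        change ro p m c = evl (Finsupp.single 0 (ro p m c))
        simp [evl_single, e_zero]⟩, ⟨⟨Finsupp.single 0 (ro p m c), 0, n⟩, map_zero (ro p m)⟩),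
        ⟨rfl, rfl⟩⟩, sub_zero c, rfl⟩
    rintro (c | c)
    · obtain ⟨z, h1, h2⟩ := key c 0
      exact ⟨z, by simp [h1, h2, dih]⟩
    · obtain ⟨z, h1, h2⟩ := key (-c) 1
      exact ⟨z, by rw [MonoidHom.mk'_apply, h1, h2]; simp [dih]⟩

variable {p m}

lemma exists_lifts {U : Type} [Group U] (ho : Odd (p * m)) (i : U →* Amb p m)
    (f : U →* DihedralGroup (p * m)) (hf : Surjective f) :
    ∃ g x : U, f g = sr 0 ∧ f x = r 1 ∧ (i x).n = 0 := by
  obtain ⟨j, hj⟩ := ho
  obtain ⟨g, hg⟩ := hf (sr 0)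
  obtain ⟨y, hy⟩ := hf (r (j + 1))
  refine ⟨g, y * g * y⁻¹ * g⁻¹, hg, ?_, by simp⟩
  simp only [map_mul, map_inv, hg, hy, inv_r, inv_sr, r_mul_sr, sr_mul_r, sr_mul_sr, r.injEq]
  have h1 : ((p * m : ℕ) : ZMod (p * m)) = ((2 * j + 1 : ℕ) : ZMod (p * m)) := by rw [← hj]
  rw [ZMod.natCast_self] at h1
  push_cast at h1
  linear_combination -h1

omit h in
lemma r_pow_ne (hp : 1 < p) (hm : 0 < m) : (r 1 : DihedralGroup (p * m)) ^ m ≠ 1 := by
  rw [r_one_pow, one_def, Ne, r.injEq, ZMod.natCast_eq_zero_iff]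
  intro h1
  have := Nat.le_of_dvd hm h1
  nlinarith

lemma no_sec_B (hp : 1 < p) (ho : Odd (p * m)) : ¬ IsSection (DihedralGroup (p * m)) (FB p m) := by
  intro hs
  obtain ⟨H, f, hf⟩ := hs.hom
  have hm := Nat.Odd.of_mul_right ho
  let i : H →* Amb p m := (FB p m).subtype.comp H.subtype
  have hi : Injective i := (FB p m).subtype_injective.comp H.subtype_injective
  obtain ⟨g, x, -, hx, hn⟩ := exists_lifts ho i f hf
  have hmem : ro p m (i x).a = 0 := x.1.2
  have h3 : x ^ m = 1 := by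
    apply hi
    rw [map_pow, pow_m hm _ hn, m_mul, hmem, map_zero, map_zero, map_one]
    rfl
  exact r_pow_ne hp hm.pos (by rw [← hx, ← map_pow, h3, map_one])

lemma no_sec_A (hp : p.Prime) (ho : Odd (p * m)) :
    ¬ IsSection (DihedralGroup (p * m)) (FA p m) := by
  intro hs
  have := Fact.mk hp
  obtain ⟨H, f, hf⟩ := hs.hom
  have hm := Nat.Odd.of_mul_right ho
  let i : H →* Amb p m := (FA p m).subtype.comp H.subtype
  have hi : Injective i := (FA p m).subtype_injective.comp H.subtype_injective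
  obtain ⟨g, x, hg, hx, hn⟩ := exists_lifts ho i f hf
  have hmem : ro p m (i x).a = evl (i x).u := x.1.2
  have hne : f (x ^ m) ≠ 1 := by
    rw [map_pow, hx]
    exact r_pow_ne hp.one_lt hm.pos
  have hxm : i (x ^ m) = ⟨0, ta p m (evl (red (cs p m) (i x).u)), 0⟩ := by
    rw [map_pow, pow_m hm _ hn, m_mul, hmem, evl_red]
  have hu : red (cs p m) (i x).u ≠ 0 := by
    intro h0
    rw [h0, map_zero, map_zero] at hxm
    exact hne (by rw [show x ^ m = 1 from hi (hxm.trans (map_one i).symm), map_one])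
  have hk : (i g).n ≠ 0 := by
    intro h0
    have h9 : g ^ (p * m) = 1 := by
      apply hi
      rw [mul_comm p m, pow_mul, map_pow, map_pow, pow_m hm _ h0, pow_cen, m_mul, p_ta, map_one]
      rfl
    have h1 : (sr 0 : DihedralGroup (p * m)) ^ (p * m) = 1 := by rw [← hg, ← map_pow, h9, map_one]
    have h2 := orderOf_dvd_of_pow_eq_one h1
    rw [orderOf_sr] at h2
    exact (Nat.not_even_iff_odd.2 ho) (even_iff_two_dvd.2 h2)
  obtain ⟨k, hk⟩ := exists_noniso _ hu _ hk
  set y : H := g ^ k * x * (g ^ k)⁻¹ with hy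
  have hyu : (i y).u = shf ((i g).n * k) (i x).u := by
    rw [hy, map_mul, map_mul, map_inv, conj_u _ _ hn, map_zpow, zpow_n]
  have hyn : (i y).n = 0 := by
    rw [hy, map_mul, map_mul, map_inv]
    simp [hn]
  rw [← red_shf, ← hyu] at hk
  set d := bet (red (cs p m) (i x).u) (red (cs p m) (i y).u) -
    bet (red (cs p m) (i y).u) (red (cs p m) (i x).u) with hd
  have hc : i (x * y * x⁻¹ * y⁻¹) = ⟨0, ta p m d, 0⟩ := by
    rw [map_mul, map_mul, map_mul, map_inv, map_inv, comm_eq _ _ hn hyn, hd, map_sub, gam, gam]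
  have hf1 : f (x * y * x⁻¹ * y⁻¹) = 1 := by
    obtain ⟨t, ht⟩ : ∃ t, f y = r t := by
      rw [hy, map_mul, map_mul, map_inv, hx]
      rcases f (g ^ k) with j | j
      · exact ⟨_, rfl⟩
      · exact ⟨_, rfl⟩
    rw [map_mul, map_mul, map_mul, map_inv, map_inv, hx, ht]
    simp
  obtain ⟨j, hj⟩ := ZMod.natCast_zmod_surjective (evl (red (cs p m) (i x).u) / d)
  have h1 : x ^ m = (x * y * x⁻¹ * y⁻¹) ^ j := by
    apply hi
    have h2 := ta_mul (m := m) (j : ℤ) d
    rw [Int.cast_natCast, Int.cast_natCast, hj, div_mul_cancel₀ _ hk] at h2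
    rw [hxm, map_pow, hc, pow_cen, h2]
  exact hne (by rw [h1, map_pow, hf1, one_pow])

end Pool.Agent.P.MP_be2783_al.H
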